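import Pool.Agent.Run7.h664.NL.Iface

/-!
# Project NL, pieces ABM and HHP: the generators and the Lie algebra `𝔥`
-/

set_option autoImplicit false

namespace Run7.h160.NL

open Finset Filter Topology Pool.Agent.TH91.RF Pool.Agent.TH91.NB Pool.Agent.TH91.LG
open Run7.h664.NL

theorem E_zpow {N : ℕ} {x : Mt N} (h : x ∈ (mF N).F 1) (k : ℤ) :
    ((E x ^ k : (Mt N)ˣ) : Mt N) = IsNilpotent.exp ((k : ℝ) • x) := by
  unfold E
  rw [dif_pos h]
  exact J1261.ue_zpow x h k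

theorem smulR_mem {N : ℕ} {x : Mt N} {k : ℕ} (h : x ∈ (mF N).F k) (t : ℝ) : t • x ∈ (mF N).F k :=
  (J887.FR N k).smul_mem t h

theorem pow_mem' {N : ℕ} {x : Mt N} (h : x ∈ (mF N).F 1) (m : ℕ) : x ^ m ∈ (mF N).F m := by
  rcases Nat.eq_zero_or_pos m with rfl | hm
  · intro i j hij
    rw [pow_zero, Matrix.one_apply_ne]
    intro h'
    rw [h'] at hij
    omega
  · exact (mF N).pow_mem h m hm

/-- The exponential of a polynomial multiple of a strictly upper triangular matrix. -/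
theorem exp_poly_mem {N d M : ℕ} {x : Mt N} (h : x ∈ (mF N).F 1) (Q : Fin d → Polynomial ℝ)
    (hQ : ∀ i, (Q i).natDegree ≤ M) :
    (fun p : ℤ × Fin d => IsNilpotent.exp ((Q p.2).eval (p.1 : ℝ) • x)) ∈ wtS N d M 0 := by
  intro i r s
  refine ⟨∑ m ∈ range (N + 1), Polynomial.C (((m.factorial : ℝ))⁻¹ * (x ^ m) r s) * (Q i) ^ m,
    fun l => ?_, deg_sum _ _ _ _ _ fun m _ => ?_⟩
  · change (IsNilpotent.exp ((Q i).eval (l : ℝ) • x) : Mt N) r s = _
    rw [(mF N).exp_eq (smulR_mem h _), Matrix.sum_apply, Polynomial.eval_finsetSum]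
    refine Finset.sum_congr rfl fun m _ => ?_
    rw [← Rat.cast_smul_eq_qsmul ℝ, Matrix.smul_apply, smul_pow, Matrix.smul_apply]
    simp only [Polynomial.eval_mul, Polynomial.eval_C, Polynomial.eval_pow, smul_eq_mul]
    push_cast
    ring
  · by_cases h0 : (x ^ m) r s = 0
    · left
      rw [h0, mul_zero, Polynomial.C_0, zero_mul]
    · right
      have h1 : ¬ (s : ℕ) < r + m := fun h' => h0 (pow_mem' h m r s h')
      refine ⟨by omega, ?_⟩
      have h2 : (Polynomial.C (((m.factorial : ℝ))⁻¹ * (x ^ m) r s) * (Q i) ^ m).natDegree ≤ m * M := by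
        refine Polynomial.natDegree_C_mul_le _ _ |>.trans ?_
        refine Polynomial.natDegree_pow_le.trans ?_
        exact Nat.mul_le_mul_left _ (hQ i)
      have h3 : m * M ≤ M * ((s : ℕ) - r) := by
        rw [mul_comm]
        exact Nat.mul_le_mul_left _ (by omega)
      omega

/-- A constant matrix. -/
theorem const_mem {N d M : ℕ} {x : Mt N} (h : x ∈ (mF N).F 1) :
    (fun _ : ℤ × Fin d => x) ∈ wtS N d M M := by
  intro i r s
  refine ⟨Polynomial.C (x r s), fun l => by rw [Polynomial.eval_C], ?_⟩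
  by_cases h0 : x r s = 0
  · left
    rw [h0, Polynomial.C_0]
  · right
    have h1 : ¬ (s : ℕ) < r + 1 := fun h' => h0 (h r s h')
    refine ⟨by omega, ?_⟩
    rw [Polynomial.natDegree_C, zero_add]
    exact Nat.le_mul_of_pos_right _ (by omega)

/-- The polynomial `p (X + h)` over the reals. -/
noncomputable def rp (p : Polynomial ℤ) (h : ℤ) : Polynomial ℝ :=
  (p.map (Int.castRingHom ℝ)).comp (Polynomial.X + Polynomial.C (h : ℝ))

theorem rp_eval (p : Polynomial ℤ) (h l : ℤ) : (rp p h).eval (l : ℝ) = ((p.eval (l + h) : ℤ) : ℝ) := by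
  rw [rp, Polynomial.eval_comp]
  simp only [Polynomial.eval_add, Polynomial.eval_X, Polynomial.eval_C]
  rw [← Int.cast_add]
  exact Polynomial.eval_intCast_map (Int.castRingHom ℝ) p (l + h)

theorem rp_deg (p : Polynomial ℤ) (h : ℤ) : (rp p h).natDegree ≤ p.natDegree := by
  rw [rp, Polynomial.natDegree_comp, Polynomial.natDegree_X_add_C, mul_one]
  exact Polynomial.natDegree_map_le

theorem Af_mem {N d M : ℕ} (C : Core N) (P : Fin d → Polynomial ℤ)
    (hP : ∀ i, (P i).natDegree ≤ M) {ξ : Mt N} (hξ : ξ ∈ C.k) (h : ℤ) :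
    Af C P ξ h ∈ wtS N d M M := by
  have h1 := exp_poly_mem C.supMc (fun i => rp (P i) h) fun i => (rp_deg _ _).trans (hP i)
  have h2 := exp_poly_mem C.supMc (fun i => -rp (P i) h) fun i => by
    rw [Polynomial.natDegree_neg]
    exact (rp_deg _ _).trans (hP i)
  have h3 : Af C P ξ h = (fun p : ℤ × Fin d => IsNilpotent.exp ((rp (P p.2) h).eval (p.1 : ℝ) • C.Mc)) *
      (fun _ : ℤ × Fin d => ξ) *
      (fun p : ℤ × Fin d => IsNilpotent.exp ((-rp (P p.2) h).eval (p.1 : ℝ) • C.Mc)) := by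
    funext p
    simp only [Af, Pi.mul_apply]
    rw [E_zpow C.supMc, E_zpow C.supMc, Polynomial.eval_neg, rp_eval, Int.cast_neg]
  rw [h3]
  have h4 := wtS_mul (wtS_mul h1 (const_mem (d := d) (M := M) (C.sup ξ hξ))) h2
  rwa [zero_add, add_zero] at h4

theorem Bf_mem {N d M : ℕ} (C : Core N) (P : Fin d → Polynomial ℤ) (hM : 1 ≤ M)
    (hP : ∀ i, (P i).natDegree ≤ M) {ξ : Mt N} (hξ : ξ ∈ C.k) (h : ℤ) :
    Bf C P ξ h ∈ wtS N d M 1 := by
  intro i r s
  obtain ⟨q, hq, hq2⟩ := Af_mem C P hP hξ h i r s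
  refine ⟨rp (P i).derivative h * q, fun l => ?_, ?_⟩
  · rw [Polynomial.eval_mul, rp_eval, ← hq]
    rfl
  · rcases hq2 with rfl | ⟨h1, h2⟩
    · left
      rw [mul_zero]
    · right
      refine ⟨h1, ?_⟩
      have h3 := Polynomial.natDegree_mul_le (p := rp (P i).derivative h) (q := q)
      have h4 := (rp_deg (P i).derivative h).trans (Polynomial.natDegree_derivative_le _)
      have h5 := hP i
      omega

theorem t_ABM : S_ABM := by
  intro N d M C P hM hP ξ hξ h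
  rw [mem_wtF, mem_wtF]
  exact ⟨wtS_anti hM (Af_mem C P hP hξ h), Bf_mem C P hM hP hξ h⟩

/-! ### The Lie algebra -/

/-- `γ ^ q` normalizes `k`. -/
theorem conj_mem {N : ℕ} (C : Core N) {x : Mt N} (hx : x ∈ C.k) (q : ℤ) :
    ((E C.Mc ^ q : (Mt N)ˣ) : Mt N) * x * ((E C.Mc ^ (-q) : (Mt N)ˣ) : Mt N) ∈ C.k := by
  rw [E_zpow C.supMc, E_zpow C.supMc, Int.cast_neg, neg_smul]
  obtain ⟨w, hw⟩ : ∃ w, w = (q : ℝ) • C.Mc := ⟨_, rfl⟩
  rw [← hw]
  have hw1 : w ∈ (mF N).F 1 := by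
    rw [hw]
    exact smulR_mem C.supMc _
  have hwn : -w ∈ (mF N).F 1 := Submodule.neg_mem _ hw1
  have h1 := (mF N).mul_exp hwn (C.sup x hx)
  rw [mul_assoc, h1, ← mul_assoc, IsNilpotent.exp_mul_exp_neg_self ((mF N).nilp hw1), one_mul]
  have h2 : ∀ k : ℕ, (adr (-w))^[k] x ∈ C.k := by
    intro k
    induction k with
    | zero => exact hx
    | succ k ih =>
      rw [Function.iterate_succ_apply']
      have h3 := C.k.smul_mem (q : ℝ) (C.brMc _ ih)
      have h4 : adr (-w) ((adr (-w))^[k] x) = (q : ℝ) • (C.Mc * (adr (-w))^[k] x -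
          (adr (-w))^[k] x * C.Mc) := by
        unfold adr
        rw [smul_sub, ← smul_mul_assoc, ← mul_smul_comm, ← hw]
        noncomm_ring
      rw [h4]
      exact h3
  exact C.k.sum_mem fun k _ => rat_smul_mem C.k _ (h2 k)

theorem shf_Af {N d : ℕ} (C : Core N) (P : Fin d → Polynomial ℤ) (ξ : Mt N) (h n : ℤ) :
    sh n (Af C P ξ h) = Af C P ξ (h + n) := by
  funext p
  rw [sh_apply, Af, Af]
  simp only [show p.1 + n + h = p.1 + (h + n) by ring]

theorem shf_Bf {N d : ℕ} (C : Core N) (P : Fin d → Polynomial ℤ) (ξ : Mt N) (h n : ℤ) :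
    sh n (Bf C P ξ h) = Bf C P ξ (h + n) := by
  funext p
  rw [sh_apply, Bf, Bf, ← shf_Af C P ξ h n, sh_apply]
  simp only [show p.1 + n + h = p.1 + (h + n) by ring]

/-- Conjugation by `γ ^ m` of a sequence. -/
noncomputable def cj {N : ℕ} (C : Core N) (d : ℕ) (m : ℤ) : AF N d →ₗ[ℝ] AF N d where
  toFun x := fun p => ((E C.Mc ^ m : (Mt N)ˣ) : Mt N) * x p * ((E C.Mc ^ (-m) : (Mt N)ˣ) : Mt N)
  map_add' x y := by
    funext p
    rw [Pi.add_apply, Pi.add_apply, mul_add, add_mul]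
  map_smul' c x := by
    funext p
    rw [Pi.smul_apply, RingHom.id_apply, Pi.smul_apply, mul_smul_comm, smul_mul_assoc]

theorem cj_apply {N : ℕ} (C : Core N) (d : ℕ) (m : ℤ) (x : AF N d) (p : ℤ × Fin d) :
    cj C d m x p = ((E C.Mc ^ m : (Mt N)ˣ) : Mt N) * x p * ((E C.Mc ^ (-m) : (Mt N)ˣ) : Mt N) := rfl

theorem cj_mul {N : ℕ} (C : Core N) (d : ℕ) (m : ℤ) (x y : AF N d) :
    cj C d m (x * y) = cj C d m x * cj C d m y := by
  funext p
  rw [Pi.mul_apply, cj_apply, cj_apply, cj_apply, Pi.mul_apply]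
  have h : ((E C.Mc ^ (-m) : (Mt N)ˣ) : Mt N) * ((E C.Mc ^ m : (Mt N)ˣ) : Mt N) = 1 := by
    rw [← Units.val_mul, ← zpow_add, neg_add_cancel, zpow_zero, Units.val_one]
  calc ((E C.Mc ^ m : (Mt N)ˣ) : Mt N) * (x p * y p) * ((E C.Mc ^ (-m) : (Mt N)ˣ) : Mt N)
      = ((E C.Mc ^ m : (Mt N)ˣ) : Mt N) * x p * 1 * y p * ((E C.Mc ^ (-m) : (Mt N)ˣ) : Mt N) := by
        noncomm_ring
    _ = _ := by
        rw [← h]
        noncomm_ring

theorem cj_Af {N d : ℕ} (C : Core N) (P : Fin d → Polynomial ℤ) (ξ : Mt N) (h m : ℤ) :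
    cj C d m (Af C P ξ h) = Af C P (((E C.Mc ^ m : (Mt N)ˣ) : Mt N) * ξ *
      ((E C.Mc ^ (-m) : (Mt N)ˣ) : Mt N)) h := by
  funext p
  rw [cj_apply, Af, Af]
  have h1 : ∀ a b : ℤ, ((E C.Mc ^ a : (Mt N)ˣ) : Mt N) * ((E C.Mc ^ b : (Mt N)ˣ) : Mt N) =
      ((E C.Mc ^ b : (Mt N)ˣ) : Mt N) * ((E C.Mc ^ a : (Mt N)ˣ) : Mt N) := by
    intro a b
    rw [← Units.val_mul, ← Units.val_mul, ← zpow_add, ← zpow_add, add_comm]
  obtain ⟨q, hq⟩ : ∃ q, q = (P p.2).eval (p.1 + h) := ⟨_, rfl⟩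
  rw [← hq]
  calc ((E C.Mc ^ m : (Mt N)ˣ) : Mt N) * (((E C.Mc ^ q : (Mt N)ˣ) : Mt N) * ξ *
        ((E C.Mc ^ (-q) : (Mt N)ˣ) : Mt N)) * ((E C.Mc ^ (-m) : (Mt N)ˣ) : Mt N)
      = (((E C.Mc ^ m : (Mt N)ˣ) : Mt N) * ((E C.Mc ^ q : (Mt N)ˣ) : Mt N)) * ξ *
        (((E C.Mc ^ (-q) : (Mt N)ˣ) : Mt N) * ((E C.Mc ^ (-m) : (Mt N)ˣ) : Mt N)) := by
        noncomm_ring
    _ = _ := by
        rw [h1 m q, h1 (-q) (-m)]
        noncomm_ring

theorem cj_Bf {N d : ℕ} (C : Core N) (P : Fin d → Polynomial ℤ) (ξ : Mt N) (h m : ℤ) :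
    cj C d m (Bf C P ξ h) = Bf C P (((E C.Mc ^ m : (Mt N)ˣ) : Mt N) * ξ *
      ((E C.Mc ^ (-m) : (Mt N)ˣ) : Mt N)) h := by
  funext p
  rw [Bf, ← cj_Af, cj_apply, cj_apply, Bf, mul_smul_comm, smul_mul_assoc]

/-- The sequences with entries in the filtration are finite dimensional. -/
theorem wtS_fin (N d M t : ℕ) : FiniteDimensional ℝ (wtS N d M t) := by
  classical
  let Φ : (Fin d → Fin N → Fin N → Fin (M * N + 1) → ℝ) →ₗ[ℝ] AF N d :=
    { toFun := fun c p => Matrix.of fun r s => ∑ j, c p.2 r s j * (p.1 : ℝ) ^ (j : ℕ)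
      map_add' := by
        intro a b
        funext p
        ext r s
        simp [add_mul, Finset.sum_add_distrib]
      map_smul' := by
        intro a b
        funext p
        ext r s
        simp [Finset.mul_sum, mul_assoc] }
  have hle : wtS N d M t ≤ LinearMap.range Φ := by
    intro x hx
    choose q hq hq2 using hx
    refine ⟨fun i r s j => (q i r s).coeff j, ?_⟩
    funext p
    ext r s
    change ∑ j : Fin (M * N + 1), (q p.2 r s).coeff j * (p.1 : ℝ) ^ (j : ℕ) = x p r s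
    have h1 : x p r s = (q p.2 r s).eval (p.1 : ℝ) := hq p.2 r s p.1
    have h2 : (q p.2 r s).natDegree < M * N + 1 := by
      rcases hq2 p.2 r s with h | ⟨h, h'⟩
      · rw [h, Polynomial.natDegree_zero]
        omega
      · have h3 : M * ((s : ℕ) - r) ≤ M * N := Nat.mul_le_mul_left _ (by omega)
        omega
    rw [h1, Polynomial.eval_eq_sum_range' h2, Finset.sum_range]
  have : FiniteDimensional ℝ (LinearMap.range Φ) := inferInstance
  exact Submodule.finiteDimensional_of_le hle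

theorem t_HHP : S_HHP := by
  intro N d M C P hM hP
  have h2 : ∀ x ∈ hh C P, x ∈ wtS N d M 1 := by
    refine fun x hx => lieSp_le (W := wtS N d M 1) ?_ ?_ hx
    · rintro x ⟨ξ, hξ, h, rfl | rfl⟩
      · exact wtS_anti hM (Af_mem C P hP hξ h)
      · exact Bf_mem C P hM hP hξ h
    · intro x hx y hy
      exact (wtS N d M 1).sub_mem (wtS_anti (by omega) (wtS_mul hx hy))
        (wtS_anti (by omega) (wtS_mul hy hx))
  refine ⟨?_, fun x hx => mem_wtF.2 (h2 x hx), ?_, ?_, ?_⟩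
  · intro x hx
    let W : Submodule ℝ (AF N d) :=
      { carrier := {x | ∀ p, x p ∈ C.k}
        add_mem' := fun ha hb p => C.k.add_mem (ha p) (hb p)
        zero_mem' := fun p => C.k.zero_mem
        smul_mem' := fun c x hx p => C.k.smul_mem c (hx p) }
    refine lieSp_le (W := W) ?_ ?_ hx
    · rintro x ⟨ξ, hξ, h, rfl | rfl⟩
      · exact fun p => conj_mem C hξ _
      · exact fun p => C.k.smul_mem _ (conj_mem C hξ _)
    · intro x hx y hy p
      exact C.br _ (hx p) _ (hy p)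
  · intro x hx n
    refine lieSp_le (W := (hh C P).comap (sh n)) ?_ ?_ hx
    · rintro x ⟨ξ, hξ, h, rfl | rfl⟩
      · change sh n (Af C P ξ h) ∈ hh C P
        rw [shf_Af]
        exact subset_lieSp _ ⟨ξ, hξ, h + n, Or.inl rfl⟩
      · change sh n (Bf C P ξ h) ∈ hh C P
        rw [shf_Bf]
        exact subset_lieSp _ ⟨ξ, hξ, h + n, Or.inr rfl⟩
    · intro x hx y hy
      change sh n (x * y - y * x) ∈ hh C P
      rw [map_sub, sh_mul, sh_mul]
      exact lieSp_br _ hx hy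
  · intro x hx m
    refine lieSp_le (W := (hh C P).comap (cj C d m)) ?_ ?_ hx
    · rintro x ⟨ξ, hξ, h, rfl | rfl⟩
      · change cj C d m (Af C P ξ h) ∈ hh C P
        rw [cj_Af]
        exact subset_lieSp _ ⟨_, conj_mem C hξ m, h, Or.inl rfl⟩
      · change cj C d m (Bf C P ξ h) ∈ hh C P
        rw [cj_Bf]
        exact subset_lieSp _ ⟨_, conj_mem C hξ m, h, Or.inr rfl⟩
    · intro x hx y hy
      change cj C d m (x * y - y * x) ∈ hh C P
      rw [map_sub, cj_mul, cj_mul]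
      exact lieSp_br _ hx hy
  · have := wtS_fin N d M 1
    exact Submodule.finiteDimensional_of_le (S₂ := wtS N d M 1) h2

end Run7.h160.NL
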