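import Pool.Agent.Run7.h664.NL.Iface

/-!
# Project NL, piece SHF: the shift and the weight filtration
-/

set_option autoImplicit false

namespace Run7.h160.NL

open Finset Filter Topology Pool.Agent.TH91.RF Pool.Agent.TH91.NB Pool.Agent.TH91.LG
open Run7.h664.NL

theorem comp_facts (q : Polynomial ℝ) (a : ℝ) :
    (q.comp (Polynomial.X + Polynomial.C a)).natDegree = q.natDegree ∧
    (q.comp (Polynomial.X + Polynomial.C a) - q = 0 ∨
      (q.comp (Polynomial.X + Polynomial.C a) - q).natDegree < q.natDegree) := by
  have h1 : (q.comp (Polynomial.X + Polynomial.C a)).natDegree = q.natDegree := by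
    rw [Polynomial.natDegree_comp, Polynomial.natDegree_X_add_C, mul_one]
  refine ⟨h1, ?_⟩
  by_cases h0 : q.natDegree = 0
  · left
    rw [Polynomial.eq_C_of_natDegree_eq_zero h0, Polynomial.C_comp, sub_self]
  · by_cases h2 : q.comp (Polynomial.X + Polynomial.C a) - q = 0
    · exact Or.inl h2
    right
    have h3 : (q.comp (Polynomial.X + Polynomial.C a)).leadingCoeff = q.leadingCoeff := by
      rw [Polynomial.leadingCoeff_comp (by rw [Polynomial.natDegree_X_add_C]; exact one_ne_zero),
        (Polynomial.monic_X_add_C a).leadingCoeff, one_pow, mul_one]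
    have hq0 : q ≠ 0 := fun h => h0 (by rw [h, Polynomial.natDegree_zero])
    have hc0 : q.comp (Polynomial.X + Polynomial.C a) ≠ 0 := by
      intro h
      rw [h, Polynomial.natDegree_zero] at h1
      exact h0 h1.symm
    have h4 : (q.comp (Polynomial.X + Polynomial.C a)).degree = q.degree := by
      rw [Polynomial.degree_eq_natDegree hc0, Polynomial.degree_eq_natDegree hq0, h1]
    have h5 := Polynomial.degree_sub_lt_right h4 hq0 h3
    exact Polynomial.natDegree_lt_natDegree h2 h5

theorem t_SHF : S_SHF := by
  intro N d M t n x hx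
  rw [mem_wtF] at hx
  rw [mem_wtF, mem_wtF]
  constructor
  · intro i r s
    obtain ⟨q, hq, hq2⟩ := hx i r s
    refine ⟨q.comp (Polynomial.X + Polynomial.C (n : ℝ)), fun l => ?_, ?_⟩
    · rw [sh_apply, hq, Polynomial.eval_comp]
      simp
    · rcases hq2 with rfl | h
      · left
        exact Polynomial.zero_comp
      · right
        rw [(comp_facts q n).1]
        exact h
  · intro i r s
    obtain ⟨q, hq, hq2⟩ := hx i r s
    refine ⟨q.comp (Polynomial.X + Polynomial.C (n : ℝ)) - q, fun l => ?_, ?_⟩
    · change sh n x (l, i) r s - x (l, i) r s = _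
      rw [sh_apply, hq, hq, Polynomial.eval_sub, Polynomial.eval_comp]
      simp
    · rcases hq2 with rfl | h
      · left
        rw [Polynomial.zero_comp, sub_zero]
      · rcases (comp_facts q n).2 with h1 | h1
        · exact Or.inl h1
        · exact Or.inr ⟨h.1, by omega⟩

end Run7.h160.NL
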